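import Pool.Agent.H477.O.Stm2
import Pool.Agent.H976.O.OInt

set_option autoImplicit false

/-!
# Project P (helper477), task S_PINT (helper981, after `Pool/Agent/H976/O/OInt.lean`): one integration
over a vertical segment of length `B ℓ`, the tolerance `e ≥ κ / log ℓ`
-/

open Complex Filter Topology Metric Set MeasureTheory

namespace Pool.Agent.H981.P

open Pool.Agent.H477.O Pool.Agent.H976.O

/-- `L / log L` tends to infinity -/
lemma ev_quot (C : ℝ) : ∀ᶠ L : ℝ in atTop, C ≤ L / Real.log L := by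
  have h2 := Real.isLittleO_log_id_atTop.def (c := 1 / (|C| + 1)) (by positivity)
  filter_upwards [h2, eventually_ge_atTop (3 : ℝ)] with L hL hL3
  simp only [id, Real.norm_eq_abs] at hL
  have hL0 : 0 < L := by linarith
  have hlog : 0 < Real.log L := Real.log_pos (by linarith)
  rw [abs_of_pos hlog, abs_of_pos hL0] at hL
  rw [le_div_iff₀ hlog]
  have hC : 0 < |C| + 1 := by positivity
  have h3 : (|C| + 1) * Real.log L ≤ L := by
    have h4 : (|C| + 1) * Real.log L ≤ (|C| + 1) * (1 / (|C| + 1) * L) :=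
      mul_le_mul_of_nonneg_left hL hC.le
    have h5 : (|C| + 1) * (1 / (|C| + 1) * L) = L := by field_simp
    linarith
  have h6 : C * Real.log L ≤ (|C| + 1) * Real.log L :=
    mul_le_mul_of_nonneg_right (by linarith [le_abs_self C]) hlog.le
  linarith

/-- `log (1 + B L) ≤ ε L / log L` for large `L` -/
lemma ev_log2 (B ε : ℝ) (hB : 0 < B) (hε : 0 < ε) :
    ∀ᶠ L : ℝ in atTop, Real.log (1 + B * L) ≤ ε * (L / Real.log L) := by
  have h2 := (Real.isLittleO_pow_log_id_atTop (n := 2)).def (c := ε / 2) (by positivity)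
  filter_upwards [h2, eventually_ge_atTop (3 : ℝ), eventually_ge_atTop (1 + B)] with L hL hL3 hLB
  have hL0 : 0 < L := by linarith
  have hlog : 0 < Real.log L := Real.log_pos (by linarith)
  simp only [id, Real.norm_eq_abs] at hL
  rw [abs_of_pos hL0, abs_of_pos (by positivity)] at hL
  have h3 : Real.log (1 + B * L) ≤ 2 * Real.log L := by
    have h4 : 1 + B * L ≤ L * L := by nlinarith
    have h5 := Real.log_le_log (by positivity) h4
    rw [Real.log_mul hL0.ne' hL0.ne'] at h5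
    linarith
  have h6 : 2 * Real.log L ≤ ε * (L / Real.log L) := by
    rw [← mul_div_assoc, le_div_iff₀ hlog]
    nlinarith
  linarith

theorem pint (hcr : S_PCR) : S_PINT := by
  intro a K c D R V κ₁ j hc hD hR hκ₁ hV
  obtain ⟨K', hK'1, hK'⟩ := hcr a K j 0 R V le_rfl hR (by linarith)
  obtain ⟨B, hBdef⟩ : ∃ B : ℝ, B = max 1 ((2 * K' + 2) / c) := ⟨_, rfl⟩
  have hB1 : 1 ≤ B := hBdef ▸ le_max_left _ _
  have hB2 : 2 * K' + 2 ≤ c * B := by
    have h1 : (2 * K' + 2) / c ≤ B := hBdef ▸ le_max_right _ _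
    rw [div_le_iff₀ hc] at h1
    linarith
  have hB0 : 0 < B := by linarith
  have hD0 : 0 < D := by linarith
  have hev := (ev_log B (1 / 2 / D) hB0 (by positivity)).and
    ((ev_log2 B (κ₁ / 4 / (R + 2) / D) hB0 (by positivity)).and
    ((ev_exp (2 * D) 2 (by norm_num)).and ((ev_quot (2 * D / c / (3 * κ₁ / 4))).and
      (eventually_ge_atTop (3 : ℝ)))))
  obtain ⟨ℓ₀, hℓ₀⟩ := eventually_atTop.mp hev
  refine ⟨B, max 3 ℓ₀, hB1, le_max_left _ _, ?_⟩
  intro X S σ Mf lf y₀ hF y hy hL u e hu huR hκe he1 hder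
  obtain ⟨L, hLdef⟩ : ∃ L : ℝ, L = lf y := ⟨_, rfl⟩
  rw [← hLdef] at hL hder hκe ⊢
  obtain ⟨e1, e1', e2, e3, e4⟩ := hℓ₀ L (le_trans (le_max_right _ _) hL)
  have hL0 : 0 < L := by linarith
  have hlogL : 0 < Real.log L := Real.log_pos (by linarith)
  have he : 0 < e := lt_of_lt_of_le (by positivity) hκe
  have hRe : 0 < R + e + 1 := by linarith
  -- `e L` is at least `κ₁ L / log L`
  have heL : κ₁ * (L / Real.log L) ≤ e * L := by
    have h1 : κ₁ / Real.log L * L ≤ e * L := mul_le_mul_of_nonneg_right hκe hL0.le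
    have h2 : κ₁ * (L / Real.log L) = κ₁ / Real.log L * L := by ring
    linarith
  have e3' : 2 * D / c ≤ Real.exp (3 * e / 4 * L) := by
    have h1 : 2 * D / c ≤ 3 * κ₁ / 4 * (L / Real.log L) := by
      have h2 := mul_le_mul_of_nonneg_left e3 (show (0 : ℝ) ≤ 3 * κ₁ / 4 by positivity)
      have h3 : 3 * κ₁ / 4 * (2 * D / c / (3 * κ₁ / 4)) = 2 * D / c := by field_simp
      linarith
    have h4 : 3 * κ₁ / 4 * (L / Real.log L) ≤ 3 * e / 4 * L := by nlinarith
    have h5 := Real.add_one_le_exp (3 * e / 4 * L)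
    linarith
  obtain ⟨κ, hκdef⟩ : ∃ κ : ℝ, κ = min (1 / 2) (e / 4 / (R + e + 1)) := ⟨_, rfl⟩
  have hκ0 : 0 < κ := by rw [hκdef]; positivity
  have hκ1 : κ ≤ 1 / 2 := hκdef ▸ min_le_left _ _
  have hκ2 : κ * (R + e + 1) ≤ e / 4 := by
    have h1 : κ ≤ e / 4 / (R + e + 1) := hκdef ▸ min_le_right _ _
    rwa [le_div_iff₀ hRe] at h1
  have hDlog : D * Real.log (1 + B * L) ≤ κ * L := by
    have h1 : D * Real.log (1 + B * L) ≤ 1 / 2 * L := by
      have h2 := mul_le_mul_of_nonneg_left e1 hD0.le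
      have h3 : D * (1 / 2 / D * L) = 1 / 2 * L := by field_simp
      linarith
    have h4 : D * Real.log (1 + B * L) ≤ e / 4 / (R + e + 1) * L := by
      have h2 := mul_le_mul_of_nonneg_left e1' hD0.le
      have h3 : D * (κ₁ / 4 / (R + 2) / D * (L / Real.log L)) =
          κ₁ * (L / Real.log L) * (1 / (4 * (R + 2))) := by
        field_simp
      have h5 : κ₁ * (L / Real.log L) * (1 / (4 * (R + 2))) ≤ e * L * (1 / (4 * (R + 2))) :=
        mul_le_mul_of_nonneg_right heL (by positivity)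
      have h6 : e * L * (1 / (4 * (R + 2))) ≤ e * L * (1 / (4 * (R + e + 1))) := by
        apply mul_le_mul_of_nonneg_left _ (by positivity)
        apply one_div_le_one_div_of_le (by positivity)
        linarith
      have h7 : e * L * (1 / (4 * (R + e + 1))) = e / 4 / (R + e + 1) * L := by
        field_simp
      linarith
    rw [hκdef, min_mul_of_nonneg _ _ hL0.le]
    exact le_min h1 h4
  have hσ : |σ| = 1 := by
    rcases hF.sg with h | h <;> simp [h]
  have hσ2 : σ * σ = 1 := by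
    rcases hF.sg with h | h <;> simp [h]
  have hdom : ∀ τ : ℝ, 0 ≤ τ → -S ≤ σ * (y + σ * τ - y₀) := by
    intro τ h0
    have h1 : σ * (y + σ * τ - y₀) = σ * (y - y₀) + σ * σ * τ := by ring
    rw [h1, hσ2]
    linarith
  have hM : 0 < Mf y := (hF.base y hy).hM
  have hX : Differentiable ℂ X := (hF.base y hy).diff
  -- the logarithm
  have hlog : ∀ τ : ℝ, 0 ≤ τ → τ ≤ B * L → D * Real.log (1 + |σ * τ|) ≤ κ * L := by
    intro τ h0 h1
    have h2 : |σ * τ| = τ := by rw [abs_mul, hσ, one_mul, abs_of_nonneg h0]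
    rw [h2]
    have h3 : Real.log (1 + τ) ≤ Real.log (1 + B * L) := Real.log_le_log (by linarith) (by linarith)
    exact (mul_le_mul_of_nonneg_left h3 hD0.le).trans hDlog
  have hup : ∀ τ : ℝ, 0 ≤ τ → τ ≤ B * L → lf (y + σ * τ) ≤ L + κ * L := by
    intro τ h0 h1
    have h2 := hF.lip y (y + σ * τ) hy (hdom τ h0)
    have h3 : y + σ * τ - y = σ * τ := by ring
    rw [h3, ← hLdef] at h2
    linarith [hlog τ h0 h1]
  have hlow : ∀ τ : ℝ, 0 ≤ τ → τ ≤ B * L → 1 ≤ lf (y + σ * τ) := by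
    intro τ h0 h1
    have h2 := hF.lip (y + σ * τ) y (hdom τ h0) hy
    have h3 : y - (y + σ * τ) = -(σ * τ) := by ring
    rw [h3, abs_neg, ← hLdef] at h2
    nlinarith [hlog τ h0 h1]
  have hT0 : 0 ≤ B * L := by positivity
  -- the end point
  have hend : ‖iteratedDeriv j X (pt (y + σ * (B * L)) u 0)‖ ≤ Mf y / 2 := by
    have h1 := hK' X _ _ _ (hF.base (y + σ * (B * L)) (hdom _ hT0)) (hlow _ hT0 le_rfl)
      (pt (y + σ * (B * L)) u 0)
      (by rw [pt_re]; rw [show (1 : ℝ) / 2 + u - 1 / 2 = u by ring, abs_of_nonneg hu]; exact huR)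
      (by rw [pt_im]; simp)
    have h2 := hF.dec y (B * L) hy hT0
    have h3 : K' * lf (y + σ * (B * L)) ≤ K' * (2 * L) := by
      apply mul_le_mul_of_nonneg_left _ (by linarith)
      have := hup (B * L) hT0 le_rfl
      nlinarith
    have h4 : Real.exp (-(c * (B * L))) * Real.exp (K' * (2 * L)) ≤ Real.exp (-(2 * L)) := by
      rw [← Real.exp_add]
      apply Real.exp_le_exp.mpr
      nlinarith
    have h5 : D * Real.exp (-(2 * L)) ≤ 1 / 2 := by
      rw [Real.exp_neg]
      have h6 : 0 < Real.exp (2 * L) := Real.exp_pos _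
      rw [← div_eq_mul_inv, div_le_iff₀ h6]
      linarith
    calc ‖iteratedDeriv j X (pt (y + σ * (B * L)) u 0)‖
        ≤ Mf (y + σ * (B * L)) * Real.exp (K' * lf (y + σ * (B * L))) := h1
      _ ≤ (D * Mf y * Real.exp (-(c * (B * L)))) * Real.exp (K' * (2 * L)) := by
          apply mul_le_mul h2 (Real.exp_le_exp.mpr h3) (Real.exp_pos _).le
          positivity
      _ = D * Mf y * (Real.exp (-(c * (B * L))) * Real.exp (K' * (2 * L))) := by ring
      _ ≤ D * Mf y * Real.exp (-(2 * L)) := by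
          apply mul_le_mul_of_nonneg_left h4; positivity
      _ = Mf y * (D * Real.exp (-(2 * L))) := by ring
      _ ≤ Mf y * (1 / 2) := by apply mul_le_mul_of_nonneg_left h5 hM.le
      _ = Mf y / 2 := by ring
  -- the derivative
  obtain ⟨Q, hQdef⟩ : ∃ Q : ℝ, Q = D * Mf y * Real.exp (L * (u + e) + e / 4 * L) := ⟨_, rfl⟩
  have hQ0 : 0 < Q := by rw [hQdef]; positivity
  have hderQ : ∀ τ : ℝ, 0 ≤ τ → τ ≤ B * L →
      ‖iteratedDeriv (j + 1) X (pt (y + σ * τ) u 0) * ((σ : ℂ) * I)‖ ≤ Q * Real.exp (-(c * τ)) := by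
    intro τ h0 h1
    have h2 := hder τ h0 h1
    have h3 := hF.dec y τ hy h0
    have h4 : ‖((σ : ℂ) * I)‖ = 1 := by
      rw [norm_mul, Complex.norm_real, Real.norm_eq_abs, hσ]; simp
    rw [norm_mul, h4, mul_one]
    have h5 : lf (y + σ * τ) * (u + e) ≤ L * (u + e) + e / 4 * L := by
      have h6 := hup τ h0 h1
      have h7 : lf (y + σ * τ) * (u + e) ≤ (L + κ * L) * (u + e) :=
        mul_le_mul_of_nonneg_right h6 (by linarith)
      have h8 : κ * (u + e) ≤ e / 4 := by
        refine le_trans (mul_le_mul_of_nonneg_left ?_ hκ0.le) hκ2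
        linarith
      have h9 : κ * (u + e) * L ≤ e / 4 * L := mul_le_mul_of_nonneg_right h8 hL0.le
      nlinarith
    calc ‖iteratedDeriv (j + 1) X (pt (y + σ * τ) u 0)‖
        ≤ Mf (y + σ * τ) * Real.exp (lf (y + σ * τ) * (u + e)) := h2
      _ ≤ (D * Mf y * Real.exp (-(c * τ))) * Real.exp (L * (u + e) + e / 4 * L) := by
          apply mul_le_mul h3 (Real.exp_le_exp.mpr h5) (Real.exp_pos _).le
          positivity
      _ = Q * Real.exp (-(c * τ)) := by rw [hQdef]; ring
  -- the integral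
  have hint : ‖iteratedDeriv j X (pt (y + σ * (B * L)) u 0) - iteratedDeriv j X (pt y u 0)‖ ≤ Q / c := by
    have h0 := int_bound (fun t : ℝ => iteratedDeriv j X (pt (y + σ * t) u 0))
      (fun t : ℝ => iteratedDeriv (j + 1) X (pt (y + σ * t) u 0) * ((σ : ℂ) * I)) (B * L) c Q hc hQ0 hT0
      (fun t => hasDerivAt_iter hX j y σ u t) hderQ
    simpa using h0
  have hQc : Q / c ≤ Mf y / 2 * Real.exp (L * (u + 2 * e)) := by
    have h1 : Real.exp (L * (u + 2 * e)) = Real.exp (L * (u + e) + e / 4 * L) * Real.exp (3 * e / 4 * L) := by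
      rw [← Real.exp_add]; ring_nf
    rw [h1, hQdef]
    have h2 : D / c ≤ Real.exp (3 * e / 4 * L) / 2 := by
      have : 2 * D / c = 2 * (D / c) := by ring
      linarith
    have h3 : 0 < Mf y * Real.exp (L * (u + e) + e / 4 * L) := by positivity
    calc D * Mf y * Real.exp (L * (u + e) + e / 4 * L) / c
        = (Mf y * Real.exp (L * (u + e) + e / 4 * L)) * (D / c) := by ring
      _ ≤ (Mf y * Real.exp (L * (u + e) + e / 4 * L)) * (Real.exp (3 * e / 4 * L) / 2) :=
          mul_le_mul_of_nonneg_left h2 h3.le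
      _ = Mf y / 2 * (Real.exp (L * (u + e) + e / 4 * L) * Real.exp (3 * e / 4 * L)) := by ring
  have h1le : 1 ≤ Real.exp (L * (u + 2 * e)) := by
    apply Real.one_le_exp
    positivity
  have htri : ‖iteratedDeriv j X (pt y u 0)‖ ≤ ‖iteratedDeriv j X (pt (y + σ * (B * L)) u 0)‖ +
      ‖iteratedDeriv j X (pt (y + σ * (B * L)) u 0) - iteratedDeriv j X (pt y u 0)‖ := by
    have h1 : iteratedDeriv j X (pt y u 0) = iteratedDeriv j X (pt (y + σ * (B * L)) u 0) -
        (iteratedDeriv j X (pt (y + σ * (B * L)) u 0) - iteratedDeriv j X (pt y u 0)) := by ring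
    calc ‖iteratedDeriv j X (pt y u 0)‖ = ‖iteratedDeriv j X (pt (y + σ * (B * L)) u 0) -
        (iteratedDeriv j X (pt (y + σ * (B * L)) u 0) - iteratedDeriv j X (pt y u 0))‖ := by rw [← h1]
      _ ≤ _ := norm_sub_le _ _
  have hfin : Mf y / 2 ≤ Mf y / 2 * Real.exp (L * (u + 2 * e)) := by
    have : 0 < Mf y / 2 := by positivity
    nlinarith
  calc ‖iteratedDeriv j X (pt y u 0)‖ ≤ Mf y / 2 + Q / c := htri.trans (add_le_add hend hint)
    _ ≤ Mf y / 2 * Real.exp (L * (u + 2 * e)) + Mf y / 2 * Real.exp (L * (u + 2 * e)) := add_le_add hfin hQc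
    _ = Mf y * Real.exp (L * (u + 2 * e)) := by ring

end Pool.Agent.H981.P
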